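import Pool.Agent.Q220.Loop.Final

/-!
Loop density and spectral radius of unimodular regular graphs: the linear order is attained.

The definitions (connected `d`-regular multigraphs, transition probabilities, spectral radius,
unimodularity) are in `Pool/Agent/Q220/Loop/Defs.lean`.
-/

set_option autoImplicit false

namespace Pool.Agent.Results.MP_74bc7f_pr.LinearOrderAttained

open MeasureTheory Pool.Agent.Q220.Loop

/-- For every `d ≥ 3` and every `r ∈ (0, 1]` there is a unimodular random rooted graph `(a, o)`,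
infinite, connected and `d`-regular, with loops and multiple edges allowed, whose spectral radius
is at most `2√(d-1)/d + 2 r` (the spectral radius of the `d`-regular tree plus `2 r`) and whose
density of loops `P(a(o,o) ≥ 1)` is at least `r`. -/
theorem result (d : ℕ) (hd : 3 ≤ d) (r : ℝ) (hr0 : 0 < r) (hr1 : r ≤ 1) :
    ∃ (V : Type) (_ : Countable V) (_ : Infinite V) (Ω : Type) (_ : MeasurableSpace Ω)
      (P : Measure Ω) (_ : IsProbabilityMeasure P) (a : Ω → V → V → ℕ) (o : Ω → V),
      IsUnimodular P a o ∧ (∀ ω, IsRegular d (a ω)) ∧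
      essSup (fun ω => spec d (a ω) (o ω)) P ≤
        ENNReal.ofReal (2 * √((d : ℝ) - 1) / d + 2 * r) ∧
      r ≤ P.real {ω | 1 ≤ a ω (o ω) (o ω)} := by
  obtain ⟨q, rfl⟩ : ∃ q, d = q + 1 := ⟨d - 1, by omega⟩
  have hq : 2 ≤ q := by omega
  have hqr : (2 : ℝ) ≤ q := by exact_mod_cast hq
  obtain ⟨k, hk1, hk2⟩ := choose_k hq hr0 hr1
  refine ⟨Vt q k, inferInstance, infinite_Vt hq, Bl q k, inferInstance, unif q k, inferInstance,
    fun _ => am, fun u => (1, u), unimodular, fun _ => regular, ?_, density hq hk1 hr0⟩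
  refine essSup_le_of_ae_le _ (Filter.Eventually.of_forall fun u => ?_)
  refine (spec_am hq _).trans (ENNReal.ofReal_le_ofReal ?_)
  push_cast
  rw [add_sub_cancel_right, add_div]
  gcongr
  rw [div_le_iff₀ (by positivity)]
  calc ((q : ℝ) ^ k)⁻¹ ≤ 2 * q * r := hk2
    _ ≤ 2 * r * (q + 1) := by nlinarith

end Pool.Agent.Results.MP_74bc7f_pr.LinearOrderAttained
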